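import Mathlib

/-!
# Radio graceful Cartesian products with a factor that is not radio graceful

`G` is the complement of the graph consisting of a vertex `c` and three triangles `a b d`, with
`c` joined to `a` and `b` of each triangle.  It is connected of diameter 2.  It is not radio
graceful, as its complement has no Hamilton path (deleting `c` leaves three components), but
`G □ K_3` is radio graceful.
-/

namespace Pool.Agent.Results.MP_ce2a64_co.ProductFactor

open SimpleGraph

/-- `f` is a radio graceful labeling of `G`: `|f u - f v| ≥ diam G + 1 - d(u, v)` for all distinct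
`u, v`, and `f(V) = {0, 1, ..., |V| - 1}`. -/
def IsRadioGracefulLabeling {V : Type*} (G : SimpleGraph V) (f : V → ℕ) : Prop :=
  (∀ u v, u ≠ v → (G.diam : ℤ) + 1 - (G.dist u v : ℤ) ≤ |(f u : ℤ) - (f v : ℤ)|) ∧
    Set.range f = Set.Iio (Nat.card V)

/-- `G` is radio graceful if it has a radio graceful labeling. -/
def RadioGraceful {V : Type*} (G : SimpleGraph V) : Prop :=
  ∃ f : V → ℕ, IsRadioGracefulLabeling G f

/-- component index: `0` for the cut vertex `c = 0` of the complement, and `1, 2, 3` for the three
triangles `{1,2,3}`, `{4,5,6}`, `{7,8,9}`. -/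
def part : Fin 10 → Fin 4 := ![0, 1, 1, 1, 2, 2, 2, 3, 3, 3]

/-- adjacency in `G`: two vertices of different triangles are adjacent; the vertex `0` is adjacent
to `2, 5, 8`. -/
def adjB (i j : Fin 10) : Bool :=
  (decide (part i ≠ part j) && decide (i ≠ 0) && decide (j ≠ 0)) ||
  (decide (i = 0) && (decide (j = 2) || decide (j = 5) || decide (j = 8))) ||
  (decide (j = 0) && (decide (i = 2) || decide (i = 5) || decide (i = 8)))

/-- The factor `G`. -/
def G : SimpleGraph (Fin 10) where
  Adj i j := adjB i j = true
  symm := ⟨by decide⟩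
  loopless := ⟨by decide⟩

instance : DecidableRel G.Adj := fun i j => inferInstanceAs (Decidable (adjB i j = true))

/-- distances in `G` -/
def dG (i j : Fin 10) : ℕ := if i = j then 0 else if adjB i j = true then 1 else 2

theorem edist_G (i j : Fin 10) : G.edist i j = (dG i j : ℕ∞) := by
  by_cases h : i = j
  · subst h; simp [dG]
  · by_cases h1 : adjB i j = true
    · have : G.Adj i j := h1
      simp only [dG, if_neg h, if_pos h1]
      exact_mod_cast edist_eq_one_iff_adj.2 this
    · simp only [dG, if_neg h, if_neg h1]
      have h2 : ∀ i j : Fin 10, i ≠ j → ¬ adjB i j = true →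
          ∃ k, adjB i k = true ∧ adjB k j = true := by decide
      obtain ⟨k, hk1, hk2⟩ := h2 i j h h1
      apply le_antisymm
      · have h3 : G.Adj i k := hk1
        have h4 : G.Adj k j := hk2
        have := edist_le (Walk.cons h3 (Walk.cons h4 Walk.nil))
        simpa using this
      · by_contra hlt
        push Not at hlt
        have h5 : G.edist i j ≤ 1 := by
          have : G.edist i j < (1 : ℕ∞) + 1 := by simpa [one_add_one_eq_two] using hlt
          exact Order.le_of_lt_add_one this
        rcases edist_le_one_iff_adj_or_eq.1 h5 with h6 | h6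
        · exact h1 h6
        · exact h h6

theorem connected_G : G.Connected := by
  have : Nonempty (Fin 10) := ⟨0⟩
  refine ⟨fun i j => ?_⟩
  apply reachable_of_edist_ne_top
  rw [edist_G]
  exact ENat.natCast_ne_top _

theorem dist_G (i j : Fin 10) : G.dist i j = dG i j := by
  have h := (connected_G.preconnected i j).coe_dist_eq_edist
  rw [edist_G] at h
  exact_mod_cast h

theorem diam_G : G.diam = 2 := by
  apply le_antisymm
  · obtain ⟨u, v, h⟩ := G.exists_dist_eq_diam
    rw [← h, dist_G]
    clear h
    revert u v
    decide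
  · have h := dist_le_diam (connected_iff_ediam_ne_top.1 connected_G) (u := 0) (v := 1)
    rw [dist_G] at h
    exact le_trans (by decide) h

/-- the complete graph on three vertices -/
abbrev K3 : SimpleGraph (Fin 3) := ⊤

theorem connected_K3 : K3.Connected := connected_top

theorem connected_prod : (G □ K3).Connected := connected_G.boxProd connected_K3

theorem dist_prod (x y : Fin 10 × Fin 3) :
    (G □ K3).dist x y = dG x.1 y.1 + if x.2 = y.2 then 0 else 1 := by
  have h := (connected_prod.preconnected x y).coe_dist_eq_edist
  rw [edist_boxProd, edist_G, edist_top] at h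
  have h2 : (((G □ K3).dist x y : ℕ) : ℕ∞) =
      ((dG x.1 y.1 + if x.2 = y.2 then 0 else 1 : ℕ) : ℕ∞) := by
    rw [h]
    split_ifs <;> simp
  exact_mod_cast h2

theorem diam_prod : (G □ K3).diam = 3 := by
  apply le_antisymm
  · obtain ⟨u, v, h⟩ := (G □ K3).exists_dist_eq_diam
    rw [← h, dist_prod]
    clear h
    revert u v
    decide +kernel
  · have h := dist_le_diam (connected_iff_ediam_ne_top.1 connected_prod)
      (u := ((0 : Fin 10), (0 : Fin 3))) (v := ((1 : Fin 10), (1 : Fin 3)))
    rw [dist_prod] at h
    exact le_trans (by decide) h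

/-- a radio graceful labeling of `G □ K_3` -/
def lab (x : Fin 10 × Fin 3) : ℕ :=
  (![![0, 10, 20], ![4, 1, 7], ![8, 5, 2], ![6, 3, 9], ![11, 17, 14], ![18, 15, 12], ![13, 19, 16], ![21, 24, 27], ![28, 22, 25], ![23, 26, 29]] : Fin 10 → Fin 3 → ℕ) x.1 x.2

theorem lab_ok : IsRadioGracefulLabeling (G □ K3) lab := by
  constructor
  · intro u v huv
    rw [diam_prod, dist_prod]
    revert u v
    decide +kernel
  · have hc : Nat.card (Fin 10 × Fin 3) = 30 := by simp
    rw [hc]
    have h1 : Finset.univ.image lab = Finset.range 30 := by decide +kernel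
    ext k
    constructor
    · rintro ⟨x, rfl⟩
      have : lab x ∈ Finset.univ.image lab := Finset.mem_image_of_mem _ (Finset.mem_univ _)
      rw [h1] at this
      simpa using this
    · intro hk
      have : k ∈ Finset.univ.image lab := by rw [h1]; simpa using hk
      obtain ⟨x, -, hx⟩ := Finset.mem_image.1 this
      exact ⟨x, hx⟩

theorem not_graceful : ¬ RadioGraceful G := by
  rintro ⟨f, hf, hr⟩
  have hc : Nat.card (Fin 10) = 10 := by simp
  rw [hc] at hr
  -- consecutive labels: the vertices are non-adjacent in `G`
  have hcons : ∀ u v, f v = f u + 1 → part u = part v ∨ u = 0 ∨ v = 0 := by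
    intro u v huv
    have hne : u ≠ v := by rintro rfl; omega
    have h := hf u v hne
    rw [diam_G, dist_G, huv] at h
    have h2 : 2 ≤ dG u v := by
      have : |(f u : ℤ) - ((f u + 1 : ℕ) : ℤ)| = 1 := by
        push_cast
        rw [show (f u : ℤ) - ((f u : ℤ) + 1) = -1 by ring]
        rfl
      rw [this] at h
      push_cast at h
      omega
    revert h2 hne
    clear h huv
    revert u v
    decide
  have hsurj : ∀ k, k < 10 → ∃ u, f u = k := by
    intro k hk
    have : k ∈ Set.range f := by rw [hr]; exact hk
    exact this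
  have hlt : ∀ u, f u < 10 := by
    intro u
    have : f u ∈ Set.range f := ⟨u, rfl⟩
    rw [hr] at this
    exact this
  have hinj : Function.Injective f := by
    intro u v huv
    by_contra hne
    have h := hf u v hne
    rw [diam_G, dist_G, huv] at h
    have h2 : dG u v ≤ 2 := by
      clear h huv hne
      revert u v
      decide
    simp only [sub_self, abs_zero] at h
    push_cast at h
    omega
  -- no crossing of the label of `0`
  have hstep : ∀ n : ℕ, ∀ u v, u ≠ 0 → v ≠ 0 → f v = f u + n →
      (f v < f 0 ∨ f 0 < f u) → part u = part v := by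
    intro n
    induction n with
    | zero =>
      intro u v _ _ h _
      rw [hinj (by omega : f v = f u)]
    | succ n ih =>
      intro u v hu hv h hside
      obtain ⟨w, hw⟩ := hsurj (f u + n) (by have := hlt v; omega)
      have hw0 : w ≠ 0 := by
        rintro rfl
        omega
      have h1 := ih u w hu hw0 hw (by omega)
      rcases hcons w v (by omega) with h2 | h2 | h2
      · rw [h1, h2]
      · exact absurd h2 hw0
      · exact absurd h2 hv
  have hsame : ∀ u v, u ≠ 0 → v ≠ 0 → ((f u < f 0 ∧ f v < f 0) ∨ (f 0 < f u ∧ f 0 < f v)) →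
      part u = part v := by
    intro u v hu hv h
    rcases le_total (f u) (f v) with h1 | h1
    · exact hstep (f v - f u) u v hu hv (by omega) (by omega)
    · exact (hstep (f u - f v) v u hv hu (by omega) (by omega)).symm
  have hne1 : f 1 ≠ f 0 := fun h => absurd (hinj h) (by decide)
  have hne4 : f 4 ≠ f 0 := fun h => absurd (hinj h) (by decide)
  have hne7 : f 7 ≠ f 0 := fun h => absurd (hinj h) (by decide)
  have a1 : ¬ part 1 = part 4 := by decide
  have a2 : ¬ part 1 = part 7 := by decide
  have a3 : ¬ part 4 = part 7 := by decide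
  have b1 : ¬ ((f 1 < f 0 ∧ f 4 < f 0) ∨ (f 0 < f 1 ∧ f 0 < f 4)) :=
    fun h => a1 (hsame 1 4 (by decide) (by decide) h)
  have b2 : ¬ ((f 1 < f 0 ∧ f 7 < f 0) ∨ (f 0 < f 1 ∧ f 0 < f 7)) :=
    fun h => a2 (hsame 1 7 (by decide) (by decide) h)
  have b3 : ¬ ((f 4 < f 0 ∧ f 7 < f 0) ∨ (f 0 < f 4 ∧ f 0 < f 7)) :=
    fun h => a3 (hsame 4 7 (by decide) (by decide) h)
  omega

/-- There are finite connected graphs `G`, `H` such that the Cartesian product `G □ H` is radio
graceful but `G` is not. -/
theorem result : ∃ (V W : Type) (_ : Fintype V) (_ : Fintype W) (G : SimpleGraph V)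
    (H : SimpleGraph W), G.Connected ∧ H.Connected ∧ RadioGraceful (G □ H) ∧
      ¬ RadioGraceful G :=
  ⟨Fin 10, Fin 3, inferInstance, inferInstance, G, K3, connected_G, connected_K3,
    ⟨lab, lab_ok⟩, not_graceful⟩

end Pool.Agent.Results.MP_ce2a64_co.ProductFactor
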